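import Pool.Agent.Run7.h500.RD.Stm

/-!
# Project RD (MP_9de3af_an, helper500): the piece VERT

The integral over the upper half plane with the kernel of the power `k` converges on the vertical
over a good real point and is bounded by the weighted norm of the direction.
-/

set_option autoImplicit false

open MeasureTheory Filter Topology Set Pool.Agent.Run7.h500.RD

namespace Run7.h329.RD

/-- the pointwise bound of the kernel, for every point with `0 ≤ η * y` -/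
theorem key (c : ℂ) (hc : 0 < c.im) (a η x y : ℝ) (h : 0 ≤ η * y) :
    1 + |x - a * y| ≤
      ((1 + ‖c‖) / c.im + 1) * ‖((a : ℂ) + η * Complex.I) * (y : ℂ) - (x : ℂ) + c‖ := by
  set Z : ℂ := ((a : ℂ) + η * Complex.I) * (y : ℂ) - (x : ℂ) + c with hZ
  have hre : Z.re = a * y - x + c.re := by
    simp [hZ]
  have him : Z.im = η * y + c.im := by
    simp [hZ]
  have h1 : c.im ≤ ‖Z‖ := by
    have h2 : |Z.im| ≤ ‖Z‖ := Complex.abs_im_le_norm Z
    have h3 : Z.im ≤ |Z.im| := le_abs_self _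
    linarith
  have h2 : |x - a * y| ≤ ‖c‖ + ‖Z‖ := by
    have e : x - a * y = c.re - Z.re := by rw [hre]; ring
    rw [e]
    calc |c.re - Z.re| ≤ |c.re| + |Z.re| := abs_sub _ _
      _ ≤ ‖c‖ + ‖Z‖ := add_le_add (Complex.abs_re_le_norm c) (Complex.abs_re_le_norm Z)
  have h3 : 1 + ‖c‖ ≤ (1 + ‖c‖) / c.im * ‖Z‖ := by
    have h4 : (1 + ‖c‖) / c.im * c.im = 1 + ‖c‖ := div_mul_cancel₀ _ hc.ne'
    have h5 : (1 + ‖c‖) / c.im * c.im ≤ (1 + ‖c‖) / c.im * ‖Z‖ :=
      mul_le_mul_of_nonneg_left h1 (by positivity)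
    linarith
  calc 1 + |x - a * y| ≤ (1 + ‖c‖) + ‖Z‖ := by linarith
    _ ≤ (1 + ‖c‖) / c.im * ‖Z‖ + ‖Z‖ := by linarith
    _ = ((1 + ‖c‖) / c.im + 1) * ‖Z‖ := by ring

/-- the pointwise bound of the integrand -/
theorem bound (f : ℝ × ℝ → ℝ) (k : ℕ) (c : ℂ) (hc : 0 < c.im) (a η : ℝ) (z : ℝ × ℝ)
    (h : 0 ≤ η * z.2) :
    ‖(f z : ℂ) * ker k c ((a : ℂ) + η * Complex.I) z‖ ≤
      ((1 + ‖c‖) / c.im + 1) ^ k * (|f z| / (1 + |z.1 - a * z.2|) ^ k) := by
  have h1 := key c hc a η z.1 z.2 h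
  set K : ℝ := (1 + ‖c‖) / c.im + 1 with hK
  have hKpos : 0 < K := by positivity
  set Z : ℂ := ((a : ℂ) + η * Complex.I) * (z.2 : ℂ) - (z.1 : ℂ) + c with hZ
  have hp : 0 < 1 + |z.1 - a * z.2| := by positivity
  have hZpos : 0 < ‖Z‖ := by
    by_contra hcon
    have : K * ‖Z‖ ≤ 0 := mul_nonpos_of_nonneg_of_nonpos hKpos.le (not_lt.1 hcon)
    linarith
  have e : ‖(f z : ℂ) * ker k c ((a : ℂ) + η * Complex.I) z‖ = |f z| * (‖Z‖ ^ k)⁻¹ := by
    unfold Pool.Agent.Run7.h500.RD.ker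
    rw [norm_mul, norm_inv, norm_pow, Complex.norm_real, Real.norm_eq_abs]
  rw [e]
  have h2 : (1 + |z.1 - a * z.2|) ^ k ≤ K ^ k * ‖Z‖ ^ k := by
    rw [← mul_pow]
    exact pow_le_pow_left₀ hp.le h1 k
  have h3 : (‖Z‖ ^ k)⁻¹ ≤ K ^ k / (1 + |z.1 - a * z.2|) ^ k := by
    rw [inv_eq_one_div, div_le_div_iff₀ (by positivity) (by positivity)]
    linarith
  calc |f z| * (‖Z‖ ^ k)⁻¹ ≤ |f z| * (K ^ k / (1 + |z.1 - a * z.2|) ^ k) :=
        mul_le_mul_of_nonneg_left h3 (abs_nonneg _)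
    _ = K ^ k * (|f z| / (1 + |z.1 - a * z.2|) ^ k) := by ring

theorem measurable_integrand (f : ℝ × ℝ → ℝ) (hf : Continuous f) (k : ℕ) (c w : ℂ) :
    Measurable (fun z : ℝ × ℝ => (f z : ℂ) * ker k c w z) := by
  unfold Pool.Agent.Run7.h500.RD.ker
  have h1 : Continuous (fun z : ℝ × ℝ => (w * (z.2 : ℂ) - (z.1 : ℂ) + c) ^ k) := by fun_prop
  have h2 : Continuous (fun z : ℝ × ℝ => (f z : ℂ)) := by fun_prop
  exact h2.measurable.mul h1.measurable.inv

theorem integrable_majorant (f : ℝ × ℝ → ℝ) (k : ℕ) (a K : ℝ) (h : WI f k a) :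
    Integrable (fun z : ℝ × ℝ => K ^ k * (|f z| / (1 + |z.1 - a * z.2|) ^ k)) := by
  have h1 := h.norm
  refine (h1.congr ?_).const_mul (K ^ k)
  refine Filter.Eventually.of_forall fun z => ?_
  have hp : 0 < (1 + |z.1 - a * z.2|) ^ k := by positivity
  show ‖f z / (1 + |z.1 - a * z.2|) ^ k‖ = |f z| / (1 + |z.1 - a * z.2|) ^ k
  rw [norm_div, Real.norm_eq_abs, Real.norm_eq_abs, abs_of_pos hp]

theorem measurableSet_up : MeasurableSet up := by
  have : up = (fun z : ℝ × ℝ => z.2) ⁻¹' Ioi 0 := by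
    ext z; simp [up]
  rw [this]
  exact measurable_snd measurableSet_Ioi

theorem t_VERT : S_VERT := by
  intro f k hf c hc a η hWI hη
  set K : ℝ := (1 + ‖c‖) / c.im + 1 with hK
  have hint := integrable_majorant f k a K hWI
  have hae : ∀ᵐ z ∂(volume.restrict up),
      ‖(f z : ℂ) * ker k c ((a : ℂ) + η * Complex.I) z‖ ≤
        K ^ k * (|f z| / (1 + |z.1 - a * z.2|) ^ k) := by
    refine ae_restrict_of_forall_mem measurableSet_up fun z hz => ?_
    have hz' : 0 < z.2 := hz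
    exact bound f k c hc a η z (mul_nonneg hη hz'.le)
  have hmeas : AEStronglyMeasurable
      (fun z : ℝ × ℝ => (f z : ℂ) * ker k c ((a : ℂ) + η * Complex.I) z) (volume.restrict up) :=
    (measurable_integrand f hf k c _).aestronglyMeasurable
  refine ⟨hint.integrableOn.mono' hmeas hae, ?_⟩
  unfold Vp
  calc ‖∫ z in up, (f z : ℂ) * ker k c ((a : ℂ) + η * Complex.I) z‖
      ≤ ∫ z in up, K ^ k * (|f z| / (1 + |z.1 - a * z.2|) ^ k) :=
        norm_integral_le_of_norm_le hint.integrableOn hae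
    _ ≤ ∫ z : ℝ × ℝ, K ^ k * (|f z| / (1 + |z.1 - a * z.2|) ^ k) := by
        refine setIntegral_le_integral hint ?_
        refine Filter.Eventually.of_forall fun z => ?_
        have hKpos : 0 < K := by positivity
        show (0 : ℝ) ≤ K ^ k * (|f z| / (1 + |z.1 - a * z.2|) ^ k)
        positivity
    _ = K ^ k * N f k a := by
        unfold N
        rw [integral_const_mul]

end Run7.h329.RD
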